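import Pool.Agent.Run7.h932.RG.Stm2
import Pool.Agent.Run7.h811.RG.CH

/-! Project RG (helper932), piece HD: few vertices of large degree. -/

set_option autoImplicit false

namespace Run7.h83.RG

open Finset Classical
open Run7.h932.RG
open Run7.h811.RG (dsum)

/-- number of the endpoints in `D` -/
noncomputable def cD {n : ℕ} (D : Finset (Fin n)) (y x : Fin n) : ℝ :=
  (if x ∈ D then 1 else 0) + (if y ∈ D then 1 else 0)

lemma dg_sum {n : ℕ} (ω : Fin n → Fin n → Bool) (x : Fin n) :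
    (dg ω x : ℝ) = ∑ y, ((if x < y ∧ ω y x = true then (1 : ℝ) else 0) +
      if y < x ∧ ω x y = true then (1 : ℝ) else 0) := by
  unfold dg
  rw [card_filter]
  push_cast
  refine sum_congr rfl fun y _ => ?_
  have h : (gr ω).Adj x y ↔ (x < y ∧ ω y x = true) ∨ (y < x ∧ ω x y = true) := by
    unfold gr
    rw [SimpleGraph.fromRel_adj]
    constructor
    · exact fun h => h.2
    · intro h
      refine ⟨?_, h⟩
      rintro rfl
      rcases h with h | h <;> exact lt_irrefl _ h.1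
  by_cases h1 : x < y ∧ ω y x = true
  · have h2 : ¬ (y < x ∧ ω x y = true) := fun h2 => lt_asymm h1.1 h2.1
    rw [if_pos (h.2 (Or.inl h1)), if_pos h1, if_neg h2, add_zero]
  · by_cases h2 : y < x ∧ ω x y = true
    · rw [if_pos (h.2 (Or.inr h2)), if_neg h1, if_pos h2, zero_add]
    · rw [if_neg (fun h3 => (h.1 h3).elim h1 h2), if_neg h1, if_neg h2, add_zero]

lemma S_sum {n : ℕ} (ω : Fin n → Fin n → Bool) (D : Finset (Fin n)) :
    ((∑ x ∈ D, dg ω x : ℕ) : ℝ) = ∑ y, ∑ x, if x < y ∧ ω y x = true then cD D y x else 0 := by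
  have h1 : ((∑ x ∈ D, dg ω x : ℕ) : ℝ) = ∑ x, if x ∈ D then (dg ω x : ℝ) else 0 := by
    push_cast
    rw [← sum_filter]
    refine sum_congr ?_ fun _ _ => rfl
    ext x
    simp
  have h2 : ∀ x, (if x ∈ D then (dg ω x : ℝ) else 0) =
      (∑ y, if x ∈ D ∧ x < y ∧ ω y x = true then (1 : ℝ) else 0) +
      ∑ y, if x ∈ D ∧ y < x ∧ ω x y = true then (1 : ℝ) else 0 := by
    intro x
    by_cases hx : x ∈ D
    · rw [if_pos hx, dg_sum, sum_add_distrib]
      simp [hx]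
    · rw [if_neg hx]
      simp [hx]
  rw [h1, sum_congr rfl fun x _ => h2 x, sum_add_distrib, sum_comm, ← sum_add_distrib]
  refine sum_congr rfl fun y _ => ?_
  rw [← sum_add_distrib]
  refine sum_congr rfl fun x _ => ?_
  unfold cD
  by_cases hxy : x < y ∧ ω y x = true
  · by_cases hx : x ∈ D <;> by_cases hy : y ∈ D <;> simp [hx, hy, hxy.1, hxy.2]
  · rw [if_neg hxy, if_neg (fun h => hxy h.2), if_neg (fun h => hxy h.2), add_zero]

lemma exp_S {n : ℕ} (ω : Fin n → Fin n → Bool) (D : Finset (Fin n)) (t : ℝ) :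
    Real.exp (t * ((∑ x ∈ D, dg ω x : ℕ) : ℝ)) =
      ∏ y, ∏ x, (if x < y ∧ ω y x = true then Real.exp (t * cD D y x) else 1) := by
  rw [S_sum, mul_sum, Real.exp_sum]
  apply prod_congr rfl
  intro y _
  rw [mul_sum, Real.exp_sum]
  apply prod_congr rfl
  intro x _
  split_ifs
  · rfl
  · rw [mul_zero, Real.exp_zero]

lemma mu_nonneg {n : ℕ} {p : Fin n → Fin n → ℝ} (h0 : ∀ x y, 0 ≤ p x y) (h1 : ∀ x y, p x y ≤ 1)
    (ω : Fin n → Fin n → Bool) : 0 ≤ mu p ω := by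
  unfold mu
  apply prod_nonneg
  intro y _
  apply prod_nonneg
  intro x _
  unfold wt
  have h3 := h0 x y
  have h4 := h1 x y
  split_ifs <;> linarith

lemma exp_cD {n : ℕ} (D : Finset (Fin n)) (y x : Fin n) (t : ℝ) (ht : 0 < t) (ht2 : t ≤ 1 / 2) :
    Real.exp (t * cD D y x) - 1 ≤ cD D y x * (t + 2 * t ^ 2) := by
  have e1 : Real.exp t ≤ 1 + t + t ^ 2 := by
    have := Real.abs_exp_sub_one_sub_id_le (x := t) (by rw [abs_of_pos ht]; linarith)
    have := (abs_le.1 this).2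
    linarith
  have e2 : Real.exp (2 * t) ≤ 1 + 2 * t + (2 * t) ^ 2 := by
    have := Real.abs_exp_sub_one_sub_id_le (x := 2 * t) (by rw [abs_of_pos (by positivity)]; linarith)
    have := (abs_le.1 this).2
    linarith
  have h3 : 0 ≤ t ^ 2 := sq_nonneg t
  unfold cD
  by_cases hx : x ∈ D <;> by_cases hy : y ∈ D
  · rw [if_pos hx, if_pos hy]
    have : t * (1 + 1) = 2 * t := by ring
    rw [this]
    nlinarith
  · rw [if_pos hx, if_neg hy, add_zero, mul_one]
    linarith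
  · rw [if_neg hx, if_pos hy, zero_add, mul_one]
    linarith
  · rw [if_neg hx, if_neg hy, add_zero, mul_zero, Real.exp_zero]
    simp

lemma cD_nonneg {n : ℕ} (D : Finset (Fin n)) (y x : Fin n) : 0 ≤ cD D y x := by
  unfold cD
  split_ifs <;> norm_num

lemma sum_cD {n : ℕ} (D : Finset (Fin n)) {p : Fin n → Fin n → ℝ} (h0 : ∀ x y, 0 ≤ p x y)
    (hs : ∀ x y, p x y = p y x) {B : ℝ} (hB : ∀ x, ∑ y, p x y ≤ B) :
    ∑ y, ∑ x, (if x < y then p x y * cD D y x else 0) ≤ D.card * B := by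
  have h1 : ∀ y x, (if x < y then p x y * cD D y x else 0) =
      (if x ∈ D then (if x < y then p x y else 0) else 0) +
      (if y ∈ D then (if x < y then p y x else 0) else 0) := by
    intro y x
    unfold cD
    rw [hs y x]
    by_cases hxy : x < y <;> by_cases hx : x ∈ D <;> by_cases hy : y ∈ D <;> simp [hx, hy, hxy]
    ring
  have h2 : ∑ y, ∑ x, (if x < y then p x y * cD D y x else 0) =
      (∑ x, ∑ y, if x ∈ D then (if x < y then p x y else 0) else 0) +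
      ∑ x, ∑ y, if x ∈ D then (if y < x then p x y else 0) else 0 := by
    rw [sum_congr rfl fun y _ => sum_congr rfl fun x _ => h1 y x]
    rw [sum_congr rfl fun y _ => sum_add_distrib, sum_add_distrib]
    congr 1
    exact sum_comm
  rw [h2, ← sum_add_distrib]
  have h3 : ∀ x, ((∑ y, if x ∈ D then (if x < y then p x y else 0) else 0) +
      ∑ y, if x ∈ D then (if y < x then p x y else 0) else 0) ≤ if x ∈ D then B else 0 := by
    intro x
    by_cases hx : x ∈ D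
    · simp only [hx, if_true]
      rw [← sum_add_distrib]
      refine le_trans (sum_le_sum fun y _ => ?_) (hB x)
      have := h0 x y
      by_cases h : x < y
      · rw [if_pos h, if_neg (lt_asymm h), add_zero]
      · rw [if_neg h, zero_add]
        split_ifs
        · exact le_rfl
        · exact this
    · simp [hx]
  refine (sum_le_sum fun x _ => h3 x).trans (le_of_eq ?_)
  rw [← sum_filter, sum_const, nsmul_eq_mul]
  congr 2
  have : univ.filter (fun x => x ∈ D) = D := by ext x; simp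
  rw [this]

/-- the exponential moments -/
lemma expm {n : ℕ} {p : Fin n → Fin n → ℝ} (h0 : ∀ x y, 0 ≤ p x y) (h1 : ∀ x y, p x y ≤ 1)
    (hs : ∀ x y, p x y = p y x) {B : ℝ} (hB : ∀ x, ∑ y, p x y ≤ B) (D : Finset (Fin n))
    (t : ℝ) (ht : 0 < t) (ht2 : t ≤ 1 / 2) :
    ∑ ω, mu p ω * Real.exp (t * ((∑ x ∈ D, dg ω x : ℕ) : ℝ)) ≤
      Real.exp (D.card * B * (t + 2 * t ^ 2)) := by
  have h2 : ∀ ω, mu p ω * Real.exp (t * ((∑ x ∈ D, dg ω x : ℕ) : ℝ)) =
      (∏ y, ∏ x, wt (p x y) (ω y x) *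
        (if x < y ∧ ω y x = true then Real.exp (t * cD D y x) else 1)) := by
    intro ω
    rw [exp_S]
    unfold mu
    rw [← prod_mul_distrib]
    exact prod_congr rfl fun y _ => (prod_mul_distrib).symm
  rw [sum_congr rfl fun ω _ => h2 ω]
  rw [dsum (fun y x b => wt (p x y) b * (if x < y ∧ b = true then Real.exp (t * cD D y x) else 1))]
  have h3 : ∀ y x : Fin n,
      wt (p x y) true * (if x < y ∧ true = true then Real.exp (t * cD D y x) else 1) +
      wt (p x y) false * (if x < y ∧ false = true then Real.exp (t * cD D y x) else 1) ≤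
      Real.exp ((if x < y then p x y * cD D y x else 0) * (t + 2 * t ^ 2)) := by
    intro y x
    have hp0 := h0 x y
    simp only [wt, if_true, and_true, Bool.false_eq_true, and_false, if_false, mul_one]
    split_ifs with hxy
    · have h3 := exp_cD D y x t ht ht2
      have h4 : p x y * Real.exp (t * cD D y x) + (1 - p x y) ≤
          1 + p x y * cD D y x * (t + 2 * t ^ 2) := by nlinarith
      have h5 := Real.add_one_le_exp (p x y * cD D y x * (t + 2 * t ^ 2))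
      linarith
    · rw [zero_mul, Real.exp_zero]
      linarith
  have h4 : ∀ y x : Fin n, 0 ≤
      wt (p x y) true * (if x < y ∧ true = true then Real.exp (t * cD D y x) else 1) +
      wt (p x y) false * (if x < y ∧ false = true then Real.exp (t * cD D y x) else 1) := by
    intro y x
    have hp0 := h0 x y
    have hp1 := h1 x y
    simp only [wt, if_true, Bool.false_eq_true, if_false]
    have := Real.exp_pos (t * cD D y x)
    split_ifs <;> nlinarith
  calc ∏ y, ∏ x, (wt (p x y) true * (if x < y ∧ true = true then Real.exp (t * cD D y x) else 1) +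
      wt (p x y) false * (if x < y ∧ false = true then Real.exp (t * cD D y x) else 1))
      ≤ ∏ y : Fin n, ∏ x : Fin n,
        Real.exp ((if x < y then p x y * cD D y x else 0) * (t + 2 * t ^ 2)) := by
        apply Finset.prod_le_prod
        · intro y _; exact prod_nonneg fun x _ => h4 y x
        · intro y _
          apply Finset.prod_le_prod
          · intro x _; exact h4 y x
          · intro x _; exact h3 y x
    _ = Real.exp ((∑ y, ∑ x, (if x < y then p x y * cD D y x else 0)) * (t + 2 * t ^ 2)) := by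
        rw [sum_mul, Real.exp_sum]
        apply prod_congr rfl
        intro y _
        rw [sum_mul, Real.exp_sum]
    _ ≤ _ := by
        rw [Real.exp_le_exp]
        exact mul_le_mul_of_nonneg_right (sum_cD D h0 hs hB) (by positivity)

lemma choose_le (n d Δ : ℕ) (hΔ : 1 ≤ Δ) (hd : (n : ℝ) / (Δ : ℝ) ^ 2 ≤ d) :
    (n.choose d : ℝ) ≤ Real.exp (d * (1 + 2 * Real.log Δ)) := by
  have hΔ0 : (0 : ℝ) < Δ := by exact_mod_cast hΔ
  have hle : n.choose d = 0 ∨ d ≤ n := by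
    rcases le_or_gt d n with h | h
    · exact Or.inr h
    · exact Or.inl (Nat.choose_eq_zero_of_lt h)
  rcases hle with h | hdn
  · rw [h]
    simp [(Real.exp_pos _).le]
  set l : ℝ := 1 / (Δ : ℝ) ^ 2 with hl
  have hl0 : 0 < l := by positivity
  have h1 : (n.choose d : ℝ) * l ^ d ≤ (l + 1) ^ n := by
    rw [add_pow]
    have := single_le_sum (f := fun m => l ^ m * 1 ^ (n - m) * (n.choose m : ℝ))
      (fun i _ => by positivity) (mem_range.2 (Nat.lt_succ_of_le hdn))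
    simp only [one_pow, mul_one] at this ⊢
    rw [mul_comm]
    exact this
  have h2 : (l + 1) ^ n ≤ Real.exp d := by
    calc (l + 1) ^ n ≤ (Real.exp l) ^ n := by
          exact pow_le_pow_left₀ (by positivity) (Real.add_one_le_exp l) n
      _ = Real.exp (n * l) := by rw [← Real.exp_nat_mul]
      _ ≤ Real.exp d := by
          rw [Real.exp_le_exp, hl, mul_one_div]
          exact hd
  have h3 : Real.exp (d * (1 + 2 * Real.log Δ)) * l ^ d = Real.exp d := by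
    have e1 : (d : ℝ) * (1 + 2 * Real.log Δ) = d + d * (2 * Real.log Δ) := by ring
    have e2 : Real.exp (2 * Real.log Δ) = (Δ : ℝ) ^ 2 := by
      rw [mul_comm, Real.exp_mul, Real.exp_log hΔ0]
      norm_cast
    rw [e1, Real.exp_add, Real.exp_nat_mul, e2, mul_assoc, ← mul_pow, hl,
      mul_one_div_cancel (by positivity), one_pow, mul_one]
  have h4 : 0 < l ^ d := by positivity
  refine le_of_mul_le_mul_right ?_ h4
  rw [h3]
  exact h1.trans h2

lemma log_le_sqrt (x : ℝ) (hx : 0 < x) : Real.log x ≤ 2 * √x := by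
  have h1 : Real.log (√x) ≤ √x := by
    have := Real.log_le_sub_one_of_pos (Real.sqrt_pos.2 hx)
    linarith
  have h2 : Real.log (√x) = Real.log x / 2 := Real.log_sqrt hx.le
  linarith

/-- the deterministic part -/
lemma det {n Δ d : ℕ} (hΔ : 2 ≤ Δ) (hn : 2 * Δ ≤ n) (hd : d = ⌈(n : ℝ) / (Δ : ℝ) ^ 2⌉₊)
    (ω : Fin n → Fin n → Bool)
    (h : ¬ (((univ.filter fun x => Δ < dg ω x).card : ℝ) ≤ n / (Δ : ℝ) ^ 2 ∧
      ((∑ x ∈ univ.filter fun x => Δ < dg ω x, dg ω x : ℕ) : ℝ) ≤ n)) :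
    ∃ D ∈ powersetCard d (univ : Finset (Fin n)), Δ * d ≤ ∑ x ∈ D, dg ω x := by
  have hΔR : (2 : ℝ) ≤ Δ := by exact_mod_cast hΔ
  have hnR : 2 * (Δ : ℝ) ≤ n := by exact_mod_cast hn
  have hn0 : (0 : ℝ) < n := by linarith
  have hd1 : (n : ℝ) / (Δ : ℝ) ^ 2 ≤ d := by rw [hd]; exact Nat.le_ceil _
  have hd2 : (d : ℝ) < (n : ℝ) / (Δ : ℝ) ^ 2 + 1 := by
    rw [hd]; exact Nat.ceil_lt_add_one (by positivity)
  have hdn : d ≤ n := by
    rw [hd]
    refine Nat.ceil_le.2 ?_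
    rw [div_le_iff₀ (by positivity)]
    have h3 : (1 : ℝ) ≤ (Δ : ℝ) ^ 2 := by nlinarith
    calc (n : ℝ) = n * 1 := (mul_one _).symm
      _ ≤ n * (Δ : ℝ) ^ 2 := mul_le_mul_of_nonneg_left h3 hn0.le
  set H := univ.filter fun x => Δ < dg ω x with hH
  by_contra hcon
  push Not at hcon
  have hlt : H.card < d := by
    by_contra hge
    push Not at hge
    obtain ⟨D, hDH, hDc⟩ := Finset.exists_subset_card_eq hge
    have h1 := hcon D (mem_powersetCard.2 ⟨subset_univ _, hDc⟩)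
    have h2 : D.card * Δ ≤ ∑ x ∈ D, dg ω x := by
      rw [← smul_eq_mul]
      refine card_nsmul_le_sum D _ _ fun x hx => ?_
      exact (mem_filter.1 (hDH hx)).2.le
    rw [hDc, mul_comm] at h2
    omega
  apply h
  have hltR : (H.card : ℝ) + 1 ≤ d := by exact_mod_cast hlt
  refine ⟨by linarith, ?_⟩
  obtain ⟨D, hHD, -, hDc⟩ := Finset.exists_subsuperset_card_eq (subset_univ H) hlt.le
    (by rw [card_univ, Fintype.card_fin]; exact hdn)
  have h1 := hcon D (mem_powersetCard.2 ⟨subset_univ _, hDc⟩)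
  have h2 : ∑ x ∈ H, dg ω x ≤ ∑ x ∈ D, dg ω x := sum_le_sum_of_subset hHD
  have h3 : ((∑ x ∈ H, dg ω x : ℕ) : ℝ) ≤ (Δ * d : ℕ) := by exact_mod_cast (h2.trans h1.le)
  refine h3.trans ?_
  push_cast
  have h4 : (Δ : ℝ) * d ≤ Δ * ((n : ℝ) / (Δ : ℝ) ^ 2 + 1) :=
    mul_le_mul_of_nonneg_left hd2.le (by linarith)
  have h5 : (Δ : ℝ) * ((n : ℝ) / (Δ : ℝ) ^ 2 + 1) = n / Δ + Δ := by
    field_simp
  have h6 : (n : ℝ) / Δ ≤ n / 2 := div_le_div_of_nonneg_left hn0.le (by norm_num) hΔR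
  linarith

theorem t_HD : S_HD := by
  intro ε hε hε1
  refine ⟨⌈(48 / ε ^ 2) ^ 2⌉₊ + 2, fun Δ hΔ K hK => ?_⟩
  have hΔ2 : 2 ≤ Δ := by omega
  have hΔR : (2 : ℝ) ≤ Δ := by exact_mod_cast hΔ2
  have hΔ0 : (0 : ℝ) < Δ := by linarith
  have hnum : 2 + 2 * Real.log Δ ≤ ε ^ 2 * Δ / 8 := by
    have h1 : (48 / ε ^ 2) ^ 2 ≤ Δ := by
      have h2 : ⌈(48 / ε ^ 2) ^ 2⌉₊ ≤ Δ := by omega
      exact (Nat.le_ceil _).trans (by exact_mod_cast h2)
    have h2 : 48 / ε ^ 2 ≤ √(Δ : ℝ) := Real.le_sqrt_of_sq_le h1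
    have h3 := log_le_sqrt Δ hΔ0
    have h4 : √(Δ : ℝ) * √(Δ : ℝ) = Δ := Real.mul_self_sqrt hΔ0.le
    have h5 : (1 : ℝ) ≤ √(Δ : ℝ) := by
      rw [Real.one_le_sqrt]; linarith
    rw [div_le_iff₀ (by positivity)] at h2
    have h6 : 48 * √(Δ : ℝ) ≤ √(Δ : ℝ) * ε ^ 2 * √(Δ : ℝ) :=
      mul_le_mul_of_nonneg_right h2 (by positivity)
    have h7 : √(Δ : ℝ) * ε ^ 2 * √(Δ : ℝ) = ε ^ 2 * Δ := by
      rw [mul_comm (√(Δ : ℝ)) (ε ^ 2), mul_assoc, h4]
    linarith
  refine ⟨⌈(2 * K * (Δ : ℝ) ^ 2) ^ 2⌉₊ + 2 * Δ, fun n hn p h0 h1 hs hdeg => ?_⟩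
  have hnΔ : 2 * Δ ≤ n := by omega
  have hn0 : (0 : ℝ) < n := by
    have : 0 < n := by omega
    exact_mod_cast this
  have hnum2 : Real.exp (-((n : ℝ) / (Δ : ℝ) ^ 2)) ≤ (n : ℝ) ^ (-K) := by
    rw [Real.rpow_def_of_pos hn0, Real.exp_le_exp]
    have h2 : (2 * K * (Δ : ℝ) ^ 2) ^ 2 ≤ n := by
      have h2 : ⌈(2 * K * (Δ : ℝ) ^ 2) ^ 2⌉₊ ≤ n := by omega
      exact (Nat.le_ceil _).trans (by exact_mod_cast h2)
    have h3 : 2 * K * (Δ : ℝ) ^ 2 ≤ √(n : ℝ) := Real.le_sqrt_of_sq_le h2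
    have h4 := log_le_sqrt n hn0
    have h5 : √(n : ℝ) * √(n : ℝ) = n := Real.mul_self_sqrt hn0.le
    have h6 : Real.log n * K ≤ n / (Δ : ℝ) ^ 2 := by
      rw [le_div_iff₀ (by positivity)]
      calc Real.log n * K * (Δ : ℝ) ^ 2 ≤ (2 * √(n : ℝ)) * K * (Δ : ℝ) ^ 2 := by
            gcongr
        _ = √(n : ℝ) * (2 * K * (Δ : ℝ) ^ 2) := by ring
        _ ≤ √(n : ℝ) * √(n : ℝ) := mul_le_mul_of_nonneg_left h3 (Real.sqrt_nonneg _)
        _ = n := h5
    linarith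
  set d := ⌈(n : ℝ) / (Δ : ℝ) ^ 2⌉₊ with hd
  have hd1 : (n : ℝ) / (Δ : ℝ) ^ 2 ≤ d := Nat.le_ceil _
  have hmu := mu_nonneg h0 h1
  set t : ℝ := ε / 4 with htd
  have ht : 0 < t := by positivity
  have ht2 : t ≤ 1 / 2 := by rw [htd]; linarith
  have hD : ∀ D ∈ powersetCard d (univ : Finset (Fin n)),
      ∑ ω, mu p ω * Real.exp (t * ((∑ x ∈ D, dg ω x : ℕ) : ℝ) - t * (Δ * d)) ≤
        Real.exp (-(ε ^ 2 * Δ / 8 * d)) := by
    intro D hD
    have hc := (mem_powersetCard.1 hD).2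
    have h2 := expm h0 h1 hs hdeg D t ht ht2
    have h3 : ∀ ω, mu p ω * Real.exp (t * ((∑ x ∈ D, dg ω x : ℕ) : ℝ) - t * (Δ * d)) =
        mu p ω * Real.exp (t * ((∑ x ∈ D, dg ω x : ℕ) : ℝ)) * Real.exp (-(t * (Δ * d))) := by
      intro ω
      rw [sub_eq_add_neg, Real.exp_add, mul_assoc]
    rw [sum_congr rfl fun ω _ => h3 ω, ← sum_mul]
    refine (mul_le_mul_of_nonneg_right h2 (Real.exp_pos _).le).trans ?_
    rw [← Real.exp_add, Real.exp_le_exp, hc, htd]
    have hdΔ : 0 ≤ (d : ℝ) * Δ := by positivity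
    have h4 : (d : ℝ) * ((1 - ε) * Δ) * (ε / 4 + 2 * (ε / 4) ^ 2) + -(ε / 4 * (Δ * d)) =
        -(ε ^ 2 / 8 * (1 + ε)) * (d * Δ) := by ring
    rw [h4]
    have h5 : 0 ≤ ε ^ 2 / 8 * ε * (d * Δ) := by positivity
    linarith
  have hbad : ∀ ω ∈ univ.filter (fun ω : Fin n → Fin n → Bool =>
      ¬ (((univ.filter fun x => Δ < dg ω x).card : ℝ) ≤ n / (Δ : ℝ) ^ 2 ∧
      ((∑ x ∈ univ.filter fun x => Δ < dg ω x, dg ω x : ℕ) : ℝ) ≤ n)),
      mu p ω ≤ ∑ D ∈ powersetCard d (univ : Finset (Fin n)),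
        mu p ω * Real.exp (t * ((∑ x ∈ D, dg ω x : ℕ) : ℝ) - t * (Δ * d)) := by
    intro ω hω
    obtain ⟨D, hDm, hDs⟩ := det hΔ2 hnΔ hd ω (mem_filter.1 hω).2
    refine le_trans ?_ (single_le_sum (f := fun D : Finset (Fin n) =>
      mu p ω * Real.exp (t * ((∑ x ∈ D, dg ω x : ℕ) : ℝ) - t * (Δ * d)))
      (fun D _ => mul_nonneg (hmu ω) (Real.exp_pos _).le) hDm)
    have h2 : (1 : ℝ) ≤ Real.exp (t * ((∑ x ∈ D, dg ω x : ℕ) : ℝ) - t * (Δ * d)) := by
      rw [← Real.exp_zero, Real.exp_le_exp, ← mul_sub]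
      refine mul_nonneg ht.le (sub_nonneg.2 ?_)
      exact_mod_cast hDs
    calc mu p ω = mu p ω * 1 := (mul_one _).symm
      _ ≤ _ := mul_le_mul_of_nonneg_left h2 (hmu ω)
  calc _ ≤ ∑ ω ∈ univ.filter (fun ω : Fin n → Fin n → Bool =>
      ¬ (((univ.filter fun x => Δ < dg ω x).card : ℝ) ≤ n / (Δ : ℝ) ^ 2 ∧
      ((∑ x ∈ univ.filter fun x => Δ < dg ω x, dg ω x : ℕ) : ℝ) ≤ n)),
        ∑ D ∈ powersetCard d (univ : Finset (Fin n)),
        mu p ω * Real.exp (t * ((∑ x ∈ D, dg ω x : ℕ) : ℝ) - t * (Δ * d)) := sum_le_sum hbad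
    _ ≤ ∑ ω, ∑ D ∈ powersetCard d (univ : Finset (Fin n)),
        mu p ω * Real.exp (t * ((∑ x ∈ D, dg ω x : ℕ) : ℝ) - t * (Δ * d)) :=
        sum_le_sum_of_subset_of_nonneg (subset_univ _) fun ω _ _ =>
          sum_nonneg fun D _ => mul_nonneg (hmu ω) (Real.exp_pos _).le
    _ = ∑ D ∈ powersetCard d (univ : Finset (Fin n)),
        ∑ ω, mu p ω * Real.exp (t * ((∑ x ∈ D, dg ω x : ℕ) : ℝ) - t * (Δ * d)) := sum_comm
    _ ≤ ∑ D ∈ powersetCard d (univ : Finset (Fin n)), Real.exp (-(ε ^ 2 * Δ / 8 * d)) :=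
        sum_le_sum hD
    _ = (n.choose d : ℝ) * Real.exp (-(ε ^ 2 * Δ / 8 * d)) := by
        rw [sum_const, card_powersetCard, card_univ, Fintype.card_fin, nsmul_eq_mul]
    _ ≤ Real.exp (d * (1 + 2 * Real.log Δ)) * Real.exp (-(ε ^ 2 * Δ / 8 * d)) :=
        mul_le_mul_of_nonneg_right (choose_le n d Δ (by omega) hd1) (Real.exp_pos _).le
    _ ≤ Real.exp (-((n : ℝ) / (Δ : ℝ) ^ 2)) := by
        rw [← Real.exp_add, Real.exp_le_exp]
        have hd0 : (0 : ℝ) ≤ d := Nat.cast_nonneg _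
        have h2 := mul_le_mul_of_nonneg_left hnum hd0
        nlinarith
    _ ≤ _ := hnum2

end Run7.h83.RG
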